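import Pool.Agent.Results.MP_78d38b_nt.AllTwistsX15
import Pool.Agent.R390.NoInv

/-!
# The order of vanishing formula at `p = 2` over multiquadratic fields for a positive proportion of all
# the quadratic twists in two residue classes of the non-CM curve `X_0(15)`

`E_M : y² = x³ - 12987 M² x - 263466 M³` is the quadratic twist by `M` of `X_0(15)`, an elliptic curve without
complex multiplication, and `Cls` is the set of ALL the squarefree numbers `D ≡ 1` or `49` modulo `60`, with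
no condition on the prime factors: a set of positive density `5 / (16 π²)`. Let `K = ℚ(√d_1, …, √d_n)` be a
field of degree `2ⁿ` where the `d_i > 0` are in this class up to squares. The pair `(M, d)` is good if for all
the `2ⁿ` twists `E_{M ∏_{i ∈ T} d_i}` the group of the rational points is finite and `Ш(ℚ)` has no element of
order two. Let `c = ∏_{i ≥ 1} (1 - 2^{-i}) = 0.2887...`.

* For a good pair the formula of the problem holds for the motive `h¹(E_M)(1)` over `K` and `p = 2`, with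
  both sides equal to zero: the complete `L`-function `L(E_M/K, s)` is meromorphic, it is holomorphic and
  not zero at the centre `s = 1`, and `H⁰(K, V_2 E_M)` and the Bloch–Kato Selmer group `H¹_f(K, V_2 E_M)` are
  zero.
* Let `𝒩` be a finite set of numbers `M` of the class up to squares, the `E_M` not isomorphic over `K`. Then
  for exactly the proportion `c ^ (|𝒩| 2ⁿ)` of the `D` of the class all the pairs `(M D, d)`, `M ∈ 𝒩`, are
  good, and for at least `(5 c ^ (|𝒩| 2ⁿ) / (16 π²) - ε) X` of the numbers `D ≤ X` the formula holds for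
  `h¹(E_{MD})(1)`, `M ∈ 𝒩`, and so for the direct sum of these motives.
* Almost all `D`: let `M_0, M_1, …` be a sequence of numbers of the class up to squares, the `E_{M_j}` pairwise
  not isomorphic over `K`, and `ψ(D) → ∞` as slowly as we please. For 100 percent of the `D` of the class the
  formula holds for one of the motives `h¹(E_{M_j D})(1)`, `j < ψ(D)`.

The Euler factors at the finitely many places `v ∣ 30 M m` are arbitrary Euler factors of the kind that an
elliptic curve has; so the statement does not depend on the computation of the minimal models there.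
`H1f 2 W` (`Pool.Agent.Y667.BKP.H1f`, a starting file) is the group of the classes of the continuous
cocycles of the absolute Galois group with values in `V_2 W = T_2 W ⊗ ℚ_2` whose restriction to the
completion at every place is in the image of the Kummer map; this is the condition of Bloch and Kato.
An element of `V_2 W` is described by a sequence of points (`IsV 2 W`).

The proportions and the Tate-Shafarevich groups are from `MP_78d38b_nt/AllTwistsX15` (helper382, helper735,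
helper757).
-/

set_option autoImplicit false

open NumberField IsDedekindDomain Filter Topology

namespace Pool.Agent.Results.MP_ec4e4b_nt.AllTwistsX15

open Pool.Agent.Results.MP_50bb2e_nt.MultiquadraticX15 (Cls UpTo InCls Ind RankZeroShaTwo GoodPair
  IsMultiquadratic OrderZero IsL qv av c num)
open Pool.Agent.Helper382_X15 (Curve)
open Pool.Agent.Results.MP_78d38b_nt.AllTwistsX15 (NonIso)
open Pool.Agent.TH841.SH.D (Gal act)
open Pool.Agent.Y667.BKP (H1f PSeq IsV)

/-- `H⁰(K, V_2 W) = 0`: the elements of `V_2 W` that are fixed by the Galois group are zero. -/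
def NoInvariants {K : Type} [Field K] (W : WeierstrassCurve K) : Prop :=
  ∀ x : PSeq W, IsV 2 W x → (∀ (σ : Gal K) (n : ℕ), act W σ.toAlgHom (x n) = x n) → ∀ n, x n = 0

/-- `P` is one of the polynomials `1 - a T + q T²` with `a² ≤ 4 q` (good reduction, Hasse's bound) or
`1 - a T` with `a = 0, 1, -1` (bad reduction) -/
def IsLocal (q : ℕ) (P : ℂ → ℂ) : Prop :=
  (∃ a : ℤ, a ^ 2 ≤ 4 * q ∧ P = fun T => 1 - (a : ℂ) * T + (q : ℂ) * T ^ 2) ∨
  (∃ a : ℤ, (a = 0 ∨ a = 1 ∨ a = -1) ∧ P = fun T => 1 - (a : ℂ) * T)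

/-- `P_v` is `1 - a_v T + q_v T²` with `a_v = q_v + 1 - #E_M(k_v)` if the finite place `v` does not divide
`30 M m`, and a polynomial of the kind above at the other places -/
def LocalFactors (K : Type) [Field K] (M m : ℤ) (P : HeightOneSpectrum (𝓞 K) → ℂ → ℂ) : Prop :=
  ∀ v, (((30 * M * m : ℤ) : 𝓞 K) ∉ v.asIdeal →
      P v = fun T => 1 - (av K M v : ℂ) * T + (qv K v : ℂ) * T ^ 2) ∧
    (((30 * M * m : ℤ) : 𝓞 K) ∈ v.asIdeal → IsLocal (qv K v) (P v))

/-- The `L`-function `∏_v P_v(q_v^{-s})⁻¹` of `E_M` over `K`, for all the Euler factors `P_v` as above, is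
meromorphic on the complex plane, and it is holomorphic and not zero at the centre `s = 1`: its order of
vanishing there is zero. -/
def OrderOfVanishingZero (K : Type) [Field K] (M m : ℤ) : Prop :=
  ∀ P : HeightOneSpectrum (𝓞 K) → ℂ → ℂ, LocalFactors K M m P → ∃ L : ℂ → ℂ,
    (∀ z, MeromorphicAt L z) ∧
    (∀ s : ℂ, (3 : ℝ) / 2 < s.re →
      HasProd (fun v : HeightOneSpectrum (𝓞 K) => (P v ((qv K v : ℂ) ^ (-s)))⁻¹) (L s)) ∧
    AnalyticAt ℂ L 1 ∧ L 1 ≠ 0

/-- The formula for the motive `h¹(E_M)(1)` over `K` and `p = 2`, with both sides zero. -/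
def Formula (K : Type) [Field K] [NumberField K] (M m : ℤ) : Prop :=
  (Curve K M).IsElliptic ∧ OrderOfVanishingZero K M m ∧ NoInvariants (Curve K M) ∧
    ∀ x : H1f 2 (Curve K M), x = 0

/-! ### the Euler factors at the bad places -/

theorem local_ne {q : ℕ} (hq : 2 ≤ q) {P : ℂ → ℂ} (h : IsLocal q P) : P ((q : ℂ)⁻¹) ≠ 0 := by
  have hq0 : (q : ℂ) ≠ 0 := by
    have : q ≠ 0 := by omega
    exact_mod_cast this
  rcases h with ⟨a, ha, rfl⟩ | ⟨a, ha, rfl⟩
  · intro h0
    have h1 : ((q : ℂ) - a + 1) = 0 := by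
      have h2 : (q : ℂ) * (1 - (a : ℂ) * (q : ℂ)⁻¹ + (q : ℂ) * ((q : ℂ)⁻¹) ^ 2) = 0 := by
        have h3 : (1 - (a : ℂ) * (q : ℂ)⁻¹ + (q : ℂ) * ((q : ℂ)⁻¹) ^ 2) = 0 := h0
        rw [h3, mul_zero]
      field_simp at h2
      linear_combination h2
    have h3 : (q : ℤ) - a + 1 = 0 := by exact_mod_cast h1
    have h4 : a = q + 1 := by linarith
    rw [h4] at ha
    have h5 : (2 : ℤ) ≤ q := by exact_mod_cast hq
    nlinarith
  · intro h0
    have h1 : ((q : ℂ) - a) = 0 := by
      have h2 : (q : ℂ) * (1 - (a : ℂ) * (q : ℂ)⁻¹) = 0 := by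
        have h3 : (1 - (a : ℂ) * (q : ℂ)⁻¹) = 0 := h0
        rw [h3, mul_zero]
      field_simp at h2
      exact h2
    have h3 : (q : ℤ) - a = 0 := by exact_mod_cast h1
    have h5 : (2 : ℤ) ≤ q := by exact_mod_cast hq
    rcases ha with rfl | rfl | rfl <;> omega

theorem local_diff {q : ℕ} {P : ℂ → ℂ} (h : IsLocal q P) : Differentiable ℂ P := by
  rcases h with ⟨a, -, rfl⟩ | ⟨a, -, rfl⟩ <;> fun_prop

theorem qv_two {K : Type} [Field K] [NumberField K] (v : HeightOneSpectrum (𝓞 K)) : 2 ≤ qv K v := by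
  have hfin : Finite (𝓞 K ⧸ v.asIdeal) := Ideal.finiteQuotientOfFreeOfNeBot v.asIdeal v.ne_bot
  have hnt : Nontrivial (𝓞 K ⧸ v.asIdeal) := Ideal.Quotient.nontrivial_iff.2 v.isPrime.ne_top
  exact Nat.succ_le_of_lt (Finite.one_lt_card_iff_nontrivial.2 hnt)

theorem pow_diff {q : ℕ} (hq : 2 ≤ q) : Differentiable ℂ fun s : ℂ => (q : ℂ) ^ (-s) := by
  have hq0 : (q : ℂ) ≠ 0 := by
    have : q ≠ 0 := by omega
    exact_mod_cast this
  intro s
  exact (differentiableAt_id.neg).const_cpow (Or.inl hq0)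

/-- the places over a nonzero integer are finite in number -/
theorem bad_finite {K : Type} [Field K] [NumberField K] {N : ℤ} (hN : N ≠ 0) :
    {v : HeightOneSpectrum (𝓞 K) | ((N : ℤ) : 𝓞 K) ∈ v.asIdeal}.Finite := by
  have h0 : ((N : ℤ) : 𝓞 K) ≠ 0 := by exact_mod_cast hN
  have h1 : (Ideal.span {((N : ℤ) : 𝓞 K)} : Ideal (𝓞 K)) ≠ 0 := by
    rw [Ne, Ideal.zero_eq_bot, Ideal.span_singleton_eq_bot]
    exact h0
  refine (Ideal.finite_factors h1).subset fun v hv => ?_
  exact Ideal.dvd_span_singleton.2 hv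

theorem order_zero {K : Type} [Field K] [NumberField K] {M m : ℤ} (hM : M ≠ 0) (hm : m ≠ 0)
    (h : OrderZero K M m) : OrderOfVanishingZero K M m := by
  classical
  intro P hP
  obtain ⟨⟨F, hF⟩, hne⟩ := h
  have hF1 := hne F hF
  have hfin := bad_finite (K := K) (N := 30 * M * m)
    (mul_ne_zero (mul_ne_zero (by norm_num) hM) hm)
  set S : Finset (HeightOneSpectrum (𝓞 K)) := hfin.toFinset with hS
  have hmem : ∀ v, v ∈ S ↔ ((30 * M * m : ℤ) : 𝓞 K) ∈ v.asIdeal := by
    intro v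
    rw [hS, Set.Finite.mem_toFinset]
    rfl
  have hloc : ∀ v ∈ S, IsLocal (qv K v) (P v) := fun v hv => (hP v).2 ((hmem v).1 hv)
  have hd : ∀ v ∈ S, Differentiable ℂ fun s : ℂ => P v ((qv K v : ℂ) ^ (-s)) := fun v hv =>
    (local_diff (hloc v hv)).comp (pow_diff (qv_two v))
  have hone : ∀ v ∈ S, P v ((qv K v : ℂ) ^ (-(1 : ℂ))) ≠ 0 := by
    intro v hv
    have h1 : ((qv K v : ℂ) ^ (-(1 : ℂ))) = (qv K v : ℂ)⁻¹ := by
      rw [Complex.cpow_neg, Complex.cpow_one]
    rw [h1]
    exact local_ne (qv_two v) (hloc v hv)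
  refine ⟨fun s => F s * ∏ v ∈ S, (P v ((qv K v : ℂ) ^ (-s)))⁻¹, fun z => ?_, fun s hs => ?_, ?_, ?_⟩
  · refine (hF.1.analyticAt z).meromorphicAt.mul ?_
    refine MeromorphicAt.fun_prod fun v hv => ?_
    exact ((hd v hv).analyticAt z).meromorphicAt.fun_inv
  · have h1 := hF.2 s hs
    have h2 : HasProd (fun v : HeightOneSpectrum (𝓞 K) =>
        if v ∈ S then (P v ((qv K v : ℂ) ^ (-s)))⁻¹ else 1)
        (∏ v ∈ S, (P v ((qv K v : ℂ) ^ (-s)))⁻¹) := by
      have h3 := hasProd_prod_of_ne_finset_one (L := SummationFilter.unconditional _)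
        (f := fun v : HeightOneSpectrum (𝓞 K) =>
          if v ∈ S then (P v ((qv K v : ℂ) ^ (-s)))⁻¹ else 1) (s := S)
        (fun v hv => if_neg hv)
      have h4 : ∏ v ∈ S, (if v ∈ S then (P v ((qv K v : ℂ) ^ (-s)))⁻¹ else 1) =
          ∏ v ∈ S, (P v ((qv K v : ℂ) ^ (-s)))⁻¹ :=
        Finset.prod_congr rfl fun v hv => if_pos hv
      rwa [h4] at h3
    refine (h1.mul h2).congr_fun ?_
    intro v
    by_cases hv : ((30 * M * m : ℤ) : 𝓞 K) ∈ v.asIdeal
    · simp only [if_pos hv, if_pos ((hmem v).2 hv), one_mul]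
    · have hq0 : (qv K v : ℂ) ≠ 0 := by
        have := qv_two v
        have h5 : qv K v ≠ 0 := by omega
        exact_mod_cast h5
      have h6 : (qv K v : ℂ) * ((qv K v : ℂ) ^ (-s)) ^ 2 = (qv K v : ℂ) ^ (1 - 2 * s) := by
        have h7 : (1 : ℂ) - 2 * s = 1 + (-s + -s) := by ring
        rw [h7, Complex.cpow_add _ _ hq0, Complex.cpow_one, Complex.cpow_add _ _ hq0, pow_two]
      simp only [if_neg hv, if_neg fun h => hv ((hmem v).1 h), mul_one, (hP v).1 hv, h6]
  · refine (hF.1.analyticAt 1).mul ?_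
    refine Finset.analyticAt_fun_prod _ fun v hv => ?_
    exact ((hd v hv).analyticAt 1).inv (hone v hv)
  · refine mul_ne_zero hF1 (Finset.prod_ne_zero_iff.2 fun v hv => inv_ne_zero (hone v hv))

/-- the formula for the good pairs -/
theorem formula {n : ℕ} {d : Fin n → ℤ} {M : ℤ} (hd : Ind d) (h : GoodPair M d)
    (K : Type) [Field K] [NumberField K] (hK : IsMultiquadratic d K) :
    Module.finrank ℚ K = 2 ^ n ∧ Formula K M (∏ i, d i) := by
  obtain ⟨h1, -, h3, h4, h5⟩ :=
    Pool.Agent.Results.MP_78d38b_nt.AllTwistsX15.shaZero hd h K hK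
  have hM : M ≠ 0 := by
    obtain ⟨D, -, h2, -, k, hk, he⟩ := h ∅
    rw [Finset.prod_empty, mul_one] at he
    rw [he]
    exact mul_ne_zero (by exact_mod_cast h2.1.ne_zero) (pow_ne_zero 2 hk)
  have hm : ∏ i, d i ≠ 0 := by
    refine Finset.prod_ne_zero_iff.2 fun i _ h0 => ?_
    refine hd {i} (Finset.singleton_nonempty i) ?_
    rw [Finset.prod_singleton, h0]
    exact ⟨0, rfl⟩
  refine ⟨h1, ?_, order_zero hM hm h5, fun x hx hfix => Pool.Agent.R390.noinv h4 x hx hfix,
    Pool.Agent.Y667.BKP.h1f_zero Nat.prime_two h4 n h3⟩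
  rw [WeierstrassCurve.isElliptic_iff, isUnit_iff_ne_zero]
  have e1 : (Curve K M).Δ = ((-16 * (4 * (-12987) ^ 3 + 27 * 263466 ^ 2) * M ^ 6 : ℤ) : K) := by
    simp only [Curve, WeierstrassCurve.Δ, WeierstrassCurve.b₂,
      WeierstrassCurve.b₄, WeierstrassCurve.b₆, WeierstrassCurve.b₈]
    push_cast
    ring
  rw [e1]
  exact Int.cast_ne_zero.2 (mul_ne_zero (by norm_num) (pow_ne_zero 6 hM))

/-- **The order of vanishing formula for the twists of `X_0(15)` over multiquadratic fields.** -/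
theorem result :
    (∀ (n : ℕ) (M : ℤ) (d : Fin n → ℤ), Ind d → GoodPair M d →
      ∀ (K : Type) [Field K] [NumberField K], IsMultiquadratic d K →
        Module.finrank ℚ K = 2 ^ n ∧ Formula K M (∏ i, d i)) ∧
    (∀ (n : ℕ) (𝒩 : Finset ℤ) (d : Fin n → ℤ), Ind d → (∀ M ∈ 𝒩, InCls M) → (∀ i, InCls (d i)) →
      NonIso 𝒩 d →
      Tendsto (fun X : ℕ => (num (fun D => ∀ M ∈ 𝒩, GoodPair (M * D) d) X : ℝ) /
        (num (fun _ => True) X : ℝ)) atTop (𝓝 (c ^ (𝒩.card * 2 ^ n))) ∧
      ∀ (K : Type) [Field K] [NumberField K], IsMultiquadratic d K → ∀ ε : ℝ, 0 < ε →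
        ∀ᶠ X : ℕ in atTop, (5 / (16 * Real.pi ^ 2) * c ^ (𝒩.card * 2 ^ n) - ε) * X ≤
          (num (fun D => ∀ M ∈ 𝒩, Formula K (M * D) (∏ i, d i)) X : ℝ)) ∧
    (∀ (n : ℕ) (d : Fin n → ℤ) (M : ℕ → ℤ), Ind d → (∀ i, InCls (d i)) → (∀ j, InCls (M j)) →
      (∀ j j', j ≠ j' → ∀ T : Finset (Fin n), ¬ IsSquare (M j * M j' * ∏ i ∈ T, d i)) →
      ∀ ψ : ℕ → ℕ, Tendsto ψ atTop atTop →
      ∀ (K : Type) [Field K] [NumberField K], IsMultiquadratic d K →
        Tendsto (fun X : ℕ => (num (fun D => ∃ j < ψ D, Formula K (M j * D) (∏ i, d i)) X : ℝ) /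
          (num (fun _ => True) X : ℝ)) atTop (𝓝 1)) ∧
    Tendsto (fun X : ℕ => (num (fun _ => True) X : ℝ) / X) atTop (𝓝 (5 / (16 * Real.pi ^ 2))) ∧
    0.2887 < c ∧ c < 0.2888 := by
  obtain ⟨-, -, -, g2, g3⟩ := Pool.Agent.Results.MP_50bb2e_nt.MultiquadraticX15.result
  refine ⟨fun n M d hd h K _ _ hK => formula hd h K hK, fun n 𝒩 d hd hM hc hne => ?_,
    fun n d M hd hc hM hne ψ hψ K _ _ hK => ?_,
    Pool.Agent.Helper382_X15.num_dens, g2, g3⟩
  · have h1 := Pool.Agent.Helper382_X15.prop_fix hd hM hc hne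
      (fun D => ∀ M ∈ 𝒩, GoodPair (M * D) d) ∅ (fun D _ _ => Iff.rfl)
    exact ⟨h1, fun K _ _ hK ε hε => (Pool.Agent.Helper382_X15.low (fun D _ h M hM =>
      (formula hd (h M hM) K hK).2) h1 hε).2⟩
  · have h1 := Pool.Agent.Helper382_X15.seq_almost hd hc M hM hne (by linarith) (by linarith) hψ
    refine Pool.Agent.Helper382_X15.almost_mono ∅ (fun D _ _ h => ?_) h1
    obtain ⟨j, hj, hg⟩ := h
    exact ⟨j, hj, (formula hd hg K hK).2⟩

end Pool.Agent.Results.MP_ec4e4b_nt.AllTwistsX15
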