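import Mathlib
import Pool.Agent.Helper503_BS.Selmer

/-!
# The order formula of Bloch and Kato over the intermediate fields of an extension

Let `M` be a polarized Chow motive (of weight `-1`) over a number field `K`, let `p` be a prime number,
and let `F/K` be a finite Galois extension with group `G`. Let `r` be the order of vanishing of the
L-function of `M` over `F` at the centre, and let `R` be the dimension of the Selmer group
`W = H¹_f(F, M_p)` over `ℚ_p`. The group `H⁰(F, M_p)` is zero, because the weight is `-1`. Over an
intermediate field `L`, the fixed field of `U`, the Selmer group `H¹_f(L, M_p)` is the space of the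
vectors of `W` fixed by `U`, and the formula of Bloch and Kato says that its dimension `dimFix ρ U` is
the order of vanishing of the L-function of `M` over `L`.

Let `S` be a normal subgroup of `G`, and let `S / N` be solvable for a normal subgroup `N` of `G` which
is built of large layers (for example `N = 1`, if `S` is solvable). We show that there is a normal
subgroup `B` of `G` with `N ≤ B ≤ S` and `[S : B] ≤ 19 ^ (r + R)` such that for all intermediate fields
`L` both numbers are those over `L ∩ F₀`, where `F₀` is the fixed field of `D = [B, B] N`. So the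
formula over `L` is equivalent to the formula over `L ∩ F₀`. If `S = G`, then `F₀` is an abelian
extension of a Galois extension `K'/K` of degree at most `19 ^ (r + R)`. Moreover, the L-function of
`M ⊗ χ` has no zero and no pole at the centre for the irreducible characters `χ` of `G` which are not
trivial on `D`, and `χ` does not occur in the Selmer group; and `D` acts trivially on the Selmer
group. The `p`-adic representation `W` is not assumed to be defined over `ℚ`.

The hypotheses on the L-functions, with the variable shifted such that the centre is `s = 1`, are the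
ones of `Pool.Agent.H541R3.ART.ArtinData G 1`: functions `L χ` for the irreducible characters `χ` of
`G`, the L-functions of `M ⊗ χ`, and `Lin H ψ` for the linear characters `ψ` of the subgroups `H`, the
L-functions of `M ⊗ ψ` over the fixed field of `H`, such that `L χ` is meromorphic and not identically
zero near the centre, `Lin H ψ` has no pole there, and `Lin H ψ` is the product of the
`L χ ^ ⟨χ|_H, ψ⟩`. This is known for motives with complex multiplication over `K` (Hecke), for
example `h¹(A)(1)` for abelian varieties `A` with complex multiplication over `K`.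
`E` is any field with an embedding into `ℂ`, in the application `E = ℚ_p`.

`BuiltW m N`, see `Pool.Agent.Helper503_CP.BuiltW`: `N` is obtained from the trivial subgroup by
finitely many steps `M ≤ N'` such that `N' / M` is generated by the commutator subgroups of pairwise
commuting subgroups of `G / M` with weights, of total weight larger than `m` for every set which is
closed under conjugation, or `N' / M` is abelian and its nontrivial characters have more than `m`
conjugates.
-/

set_option autoImplicit false

open Pool.Agent.H541R3.ART Pool.Agent.Helper503_CP Pool.Agent.Helper503_BS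

/-- Let the L-function over `F` have order `r` at the centre, let the `E`-representation `W` of `G`
have dimension `R`, let `r ≤ m` and `R ≤ m`, let `N ≤ S` be normal subgroups of `G` with `BuiltW m N`
and `S / N` solvable. There is a normal subgroup `B` of `G` with `N ≤ B ≤ S`, `[S : B] ≤ 19 ^ (r + R)`
and `[S : B] ^ 5 ≤ 2 ^ (34 ((r - 1) + (R - 1)))`, such that with `D = [B, B] N`: for all subgroups `U`
of `G` the orders of the L-functions and the dimensions of the spaces of fixed vectors are the same
for `U` and for `U ⊔ D`, so that the formula holds over the fixed field of `U` if and only if it holds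
over the fixed field of `U ⊔ D`; for every irreducible character `χ` of `G` which is not trivial on
`D`, `L χ` has order `0` at the centre, and `χ` does not occur in `ℂ ⊗ W`; and `D` acts trivially on
`W`. -/
theorem Pool.Agent.Results.MP_ec4e4b_nt.SelmerGroupsSolvable.result
    (G : Type) [Group G] [Finite G] (A : ArtinData G 1)
    (E : Type) [Field E] [Algebra E ℂ] (W : Type) [AddCommGroup W] [Module E W]
    [FiniteDimensional E W] (ρ : Representation E G W) (r R m : ℕ)
    (hr : meromorphicOrderAt (A.Lin ⊥ 1) 1 = (r : WithTop ℤ)) (hR : Module.finrank E W = R)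
    (hrm : r ≤ m) (hRm : R ≤ m) (N : Subgroup G) [N.Normal] (hN : BuiltW m N)
    (S : Subgroup G) (hSn : S.Normal) (hNS : N ≤ S)
    (hS : Group.IsSolvable (S.map (QuotientGroup.mk' N))) :
    ∃ B : Subgroup G, B.Normal ∧ N ≤ B ∧ B ≤ S ∧ B.relIndex S ≤ 19 ^ (r + R) ∧
      B.relIndex S ^ 5 ≤ 2 ^ (34 * ((r - 1) + (R - 1))) ∧
      (∀ U : Subgroup G,
        meromorphicOrderAt (A.Lin U 1) 1 = meromorphicOrderAt (A.Lin (U ⊔ (⁅B, B⁆ ⊔ N)) 1) 1 ∧
        dimFix ρ U = dimFix ρ (U ⊔ (⁅B, B⁆ ⊔ N)) ∧
        (meromorphicOrderAt (A.Lin U 1) 1 = (dimFix ρ U : WithTop ℤ) ↔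
          meromorphicOrderAt (A.Lin (U ⊔ (⁅B, B⁆ ⊔ N)) 1) 1
            = (dimFix ρ (U ⊔ (⁅B, B⁆ ⊔ N)) : WithTop ℤ))) ∧
      (∀ χ ∈ Irr G, (∃ x ∈ ⁅B, B⁆ ⊔ N, χ x ≠ χ 1) → meromorphicOrderAt (A.L χ) 1 = 0 ∧
        ∑ᶠ g : G, algebraMap E ℂ (ρ.character g) * χ g⁻¹ = 0) ∧
      ∀ x ∈ ⁅B, B⁆ ⊔ N, ρ x = 1 := by
  obtain ⟨B, hBn, hNB, hBS, ha, hb, h1, h2⟩ :=
    selmer_main A ρ hr hR hrm hRm N hN S hSn hNS hS
  have hD : (⁅B, B⁆ ⊔ N : Subgroup G).Normal := inferInstance
  refine ⟨B, hBn, hNB, hBS, ha, hb, fun U => ?_, fun χ hχ h => ⟨?_, ?_⟩, triv_of_inv' ρ _ h2⟩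
  · have h3 := order_sup A (⁅B, B⁆ ⊔ N) h1 U
    have h4 := dimFix_sup ρ (⁅B, B⁆ ⊔ N) h2 U
    exact ⟨h3, h4, by rw [h3, h4]⟩
  · exact order_zero_of_pair A hχ (pr_zero_of_inv (⁅B, B⁆ ⊔ N) h1 hχ h)
  · have h3 := pr_zero_of_inv (⁅B, B⁆ ⊔ N) h2 hχ h
    rw [← h3]
    refine finsum_congr fun g => ?_
    rw [bc_char]
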